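import Pool.Agent.Q33.Fam.Ratio
import Pool.Agent.Q33.Fam.X10
import Pool.Agent.Q33.Fam.W10

set_option autoImplicit false

namespace Pool.Agent.Results.MP_1cf91b_nt.Ten

open Finset Pool.Agent.Q33.Fam

lemma ft0 (N : ℕ) : W10.ft 0 N = (((10 : ℤ) * N + 3) * w2 N : ℤ) := by
  unfold W10.ft
  push_cast
  rw [w2_fact]
  simp only [mul_zero, zero_add, pow_zero]
  have h1 : (N.factorial : ℚ) ≠ 0 := by exact_mod_cast N.factorial_ne_zero
  field_simp
  ring

lemma gtQ (k M : ℕ) : Q 2 (((2 * k + M + 1 : ℕ) : ℤ) * cb (2 * k + M + 1)) (W10.gt k M) := by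
  apply Q_ratio0 ((-1) ^ k * 4) _ _ (X10 k M)
  unfold W10.gt
  push_cast
  rw [cb_fact]
  simp only [fp_cons, fp_nil]
  have e1 : 4 * k + 2 * M + 2 = 2 * (2 * k + M + 1) := by ring
  rw [e1]
  push_cast
  have h1 : ((2 * k + M + 1).factorial : ℚ) ≠ 0 := by exact_mod_cast Nat.factorial_ne_zero _
  have h2 : ((2 * (2 * k + M + 1)).factorial : ℚ) ≠ 0 := by exact_mod_cast Nat.factorial_ne_zero _
  have h3 : (M.factorial : ℚ) ≠ 0 := by exact_mod_cast Nat.factorial_ne_zero _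
  have h4 : ((k + M).factorial : ℚ) ≠ 0 := by exact_mod_cast Nat.factorial_ne_zero _
  have h5 : ((3 * k + M + 1).factorial : ℚ) ≠ 0 := by exact_mod_cast Nat.factorial_ne_zero _
  rw [add_zero]
  field_simp

lemma hQ (n : ℕ) (hn : 1 ≤ n) : Q 2 ((n : ℤ) * cb n) (((8 : ℤ) : ℚ) * (S 10 3 8 w2 n : ℤ)) := by
  rw [← tele2 8 10 3 w2 W10.ft W10.gt ?_ ?_ ?_ ft0 n]
  · apply Q_sum
    intro k hk
    split_ifs with h
    · have e : 2 * k + (n - 2 * k - 1) + 1 = n := by omega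
      have := gtQ k (n - 2 * k - 1)
      rw [e] at this
      exact this
    · exact Q_zero _ _
  · intro k M
    have := W10.Wgen k M
    push_cast
    exact this
  · intro k
    have := W10.Wb1 k
    push_cast
    exact this
  · intro k
    have := W10.Wb0 k
    push_cast
    exact this

/-- For every `n ≥ 2`, `n (2n+1) C(2n,n)` divides `∑_{k<n} (10k+3) C(2k,k)^2 C(3k,k) 8^(n-1-k)`. -/
theorem result : ∀ n : ℕ, 2 ≤ n →
    n * (2 * n + 1) * (2 * n).choose n ∣
      ∑ k ∈ range n, (10 * k + 3) * (2 * k).choose k ^ 2 * (3 * k).choose k * 8 ^ (n - 1 - k) := by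
  intro n hn
  obtain ⟨i, h1⟩ := main_part 10 3 8 w2 2 (by norm_num) hQ ⟨3, by norm_num⟩ (by norm_num) w2_dvd n (by omega)
  obtain ⟨V, hV⟩ := V2
  obtain ⟨q, hq, h2⟩ := two_part 10 3 4 w2 1 V 2 (by norm_num) (fun n h => hV n (by omega))
    ⟨1, by norm_num, by
      have e : (2 : ℤ) * 4 = 8 := by norm_num
      rw [e]
      unfold D S w2 cb
      simp [sum_range_succ, Nat.choose]⟩ n hn
  rw [one_mul] at h2
  have e : (2 : ℤ) * 4 = 8 := by norm_num
  rw [e] at h2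
  have h3 : D n ∣ S 10 3 8 w2 n := combine (u := 2 ^ i) (v := q) (coprime_two_pow q hq i) h1 h2
  have h4 : (((n * (2 * n + 1) * (2 * n).choose n : ℕ)) : ℤ) ∣
      ((∑ k ∈ range n, (10 * k + 3) * (2 * k).choose k ^ 2 * (3 * k).choose k * 8 ^ (n - 1 - k) : ℕ) : ℤ) := by
    convert h3 using 1
    · unfold D cb; push_cast; ring
    · unfold S w2 cb
      push_cast
      apply sum_congr rfl
      intro k _
      ring
  exact_mod_cast h4

end Pool.Agent.Results.MP_1cf91b_nt.Ten
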